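import Pool.Agent.H.MP_a83649_an.E

namespace Pool.Agent.Results.MP_a83649_an.No

open Pool.Agent.H.MP_a83649_an

theorem result : ∃ A : LP →L[ℂ] LP, Bad (fun x i => x i) A := ⟨Aop, main⟩

end Pool.Agent.Results.MP_a83649_an.No
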